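import Pool.Agent.H53.EH.Cap
import Pool.Agent.H57.EH.V3
import Pool.Agent.H44.EH.Circ
import Pool.Agent.H24.EH.Defs

/-!
# EH-TDo: from test functions to transfinite diameters

`td_of_EN`: if for every `ε > 0` there is (for some arbitrarily large `R`) a function `u`, Lipschitz on `|z| ≤ R`,
`u ≥ log R + γ - ε` on `|z| = R`, with energy `≤ 2π (log R + γ + ε)` and `u ≤ ε` on `A`, then the transfinite diameter of `A` is
at most `exp (-γ)`.
-/

set_option autoImplicit false

open MeasureTheory Set Filter Topology Metric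
open scoped Real ENNReal NNReal

noncomputable section

namespace Pool.Agent.H31.EH

theorem gsq_eq (u : ℂ → ℝ) : Pool.Agent.H53.EH.gsq u = Pool.Agent.H24.EH.gsq u := rfl

/-- the arithmetic of the choice of `k` -/
theorem exists_k (x y L : ℝ) (h : x < y) : ∃ k : ℕ, 0 < k ∧
    (k : ℝ) ^ 2 * x + k * L < (k : ℝ) * (k - 1) * y := by
  obtain ⟨k, hk⟩ := exists_nat_gt ((L + y) / (y - x))
  have hd : 0 < y - x := by linarith
  refine ⟨k + 1, Nat.succ_pos k, ?_⟩
  push_cast
  have h1 : L + y < k * (y - x) := by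
    rwa [div_lt_iff₀ hd] at hk
  have h2 : (0 : ℝ) < (k : ℝ) + 1 := by positivity
  have h3 : L + y < (k + 1) * (y - x) := by linarith
  have h4 := mul_lt_mul_of_pos_left h3 h2
  nlinarith

theorem td_of_EN (A : Set ℂ) (ρ₀ γ : ℝ) (hA : ∀ z ∈ A, ‖z‖ ≤ ρ₀)
    (hEN : ∀ ε : ℝ, 0 < ε → ∀ R₁ : ℝ, ∃ (R : ℝ) (K : ℝ≥0) (u : ℂ → ℝ), R₁ ≤ R ∧
      LipschitzOnWith K u (closedBall 0 R) ∧ (∀ z : ℂ, ‖z‖ = R → Real.log R + γ - ε ≤ u z) ∧
      (∫ z in ball (0 : ℂ) R, Pool.Agent.H53.EH.gsq u z) ≤ 2 * π * (Real.log R + γ + ε) ∧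
      ∀ z ∈ A, u z ≤ ε) :
    Pool.Agent.H44.EH.TD A (Real.exp (-γ)) := by
  intro c hc
  have hc0 : 0 < c := (Real.exp_pos _).trans hc
  have hlc : -γ < Real.log c := by rwa [Real.lt_log_iff_exp_lt hc0]
  obtain ⟨e, he⟩ : ∃ e : ℝ, e = (Real.log c + γ) / 16 := ⟨_, rfl⟩
  have he0 : 0 < e := by rw [he]; linarith
  obtain ⟨M, hM⟩ : ∃ M : ℝ, M = |ρ₀| + 1 := ⟨_, rfl⟩
  have hM0 : 0 < M := by rw [hM]; positivity
  have hAM : ∀ z ∈ A, ‖z‖ ≤ M := fun z hz => by
    rw [hM]
    linarith [hA z hz, le_abs_self ρ₀]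
  obtain ⟨R, K, u, hR, hu, hout, hE, hin⟩ := hEN e he0 (max (M + 2) (M / e))
  have hR1 : M + 2 ≤ R := (le_max_left _ _).trans hR
  have hR2 : M / e ≤ R := (le_max_right _ _).trans hR
  have hR0 : 0 < R := by linarith
  obtain ⟨ε, hε⟩ : ∃ ε : ℝ, ε = min 1 (e / (K + 1)) := ⟨_, rfl⟩
  have hK1 : (0 : ℝ) < (K : ℝ) + 1 := by positivity
  have hε0 : 0 < ε := by rw [hε]; exact lt_min one_pos (by positivity)
  have hε1 : ε ≤ 1 := by rw [hε]; exact min_le_left _ _
  have hεK : (K : ℝ) * ε ≤ e := by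
    have h1 : ε ≤ e / (K + 1) := by rw [hε]; exact min_le_right _ _
    have h2 : (K + 1) * ε ≤ e := by
      rw [le_div_iff₀ hK1] at h1
      linarith
    nlinarith
  have hlog : Real.log (1 + M / R) ≤ e := by
    have h1 : Real.log (1 + M / R) ≤ 1 + M / R - 1 := Real.log_le_sub_one_of_pos (by positivity)
    have h2 : M / R ≤ e := by
      rw [div_le_iff₀ hR0]
      rw [div_le_iff₀ he0] at hR2
      linarith
    linarith
  obtain ⟨k, hk0, hk⟩ := exists_k (-γ + 8 * e) (Real.log c) (-Real.log ε) (by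
    have : Real.log c + γ = 16 * e := by rw [he]; ring
    linarith)
  refine ⟨k, hk0, fun z hz => ?_⟩
  by_cases hinj : Function.Injective z
  · have hdet : (Matrix.vandermonde z).det ≠ 0 := Matrix.det_vandermonde_ne_zero_iff.2 hinj
    have hpos : 0 < ‖(Matrix.vandermonde z).det‖ := norm_pos_iff.2 hdet
    have hmain := Pool.Agent.H53.EH.energy_points (R := R) (ρ := M) (c := γ) (η := e) (η' := e)
      (δ := 2 * e) (ε := ε) hu hout hE hk0 z hinj hM0.le (fun i => hAM _ (hz i)) hε0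
      (by linarith) (by
        intro i x hx
        have hxR : x ∈ closedBall (0 : ℂ) R := by
          rw [mem_closedBall_zero_iff]
          calc ‖x‖ = ‖(x - z i) + z i‖ := by congr 1; ring
            _ ≤ ‖x - z i‖ + ‖z i‖ := norm_add_le _ _
            _ ≤ R := by rw [hx]; linarith [hAM _ (hz i)]
        have hzR : z i ∈ closedBall (0 : ℂ) R := by
          rw [mem_closedBall_zero_iff]
          linarith [hAM _ (hz i)]
        have h1 := hu.dist_le_mul x hxR (z i) hzR
        rw [dist_eq_norm, dist_eq_norm, hx, Real.norm_eq_abs] at h1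
        have h2 := le_abs_self (u x - u (z i))
        have h3 := hin _ (hz i)
        linarith)
    have hlogdet := Pool.Agent.H57.EH.log_det_sq z hinj
    have hsum : ∑ i, ∑ j, (-Real.log ‖z i - z j‖) = -(2 * Real.log ‖(Matrix.vandermonde z).det‖) := by
      rw [hlogdet, ← Finset.sum_neg_distrib]
      refine Finset.sum_congr rfl fun i _ => ?_
      rw [← Finset.sum_neg_distrib]
      refine Finset.sum_congr rfl fun j _ => ?_
      split_ifs with h
      · rw [h]; simp
      · rfl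
    rw [hsum] at hmain
    have hk' : (0 : ℝ) < k := by exact_mod_cast hk0
    have h4 : 2 * Real.log ‖(Matrix.vandermonde z).det‖ ≤
        (k : ℝ) ^ 2 * (-γ + 8 * e) + k * (-Real.log ε) := by
      have h5 : 1 / (k : ℝ) ^ 2 * -(2 * Real.log ‖(Matrix.vandermonde z).det‖) +
          1 / (k : ℝ) * (-Real.log ε) =
          (-(2 * Real.log ‖(Matrix.vandermonde z).det‖) + k * (-Real.log ε)) / (k : ℝ) ^ 2 := by
        field_simp
      rw [h5, le_div_iff₀ (by positivity)] at hmain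
      have h6 : (γ - 2 * e - e - 2 * (2 * e) - Real.log (1 + M / R)) * (k : ℝ) ^ 2 ≥
          (γ - 8 * e) * (k : ℝ) ^ 2 := by
        apply mul_le_mul_of_nonneg_right _ (by positivity)
        linarith
      nlinarith
    have h7 : Real.log ‖(Matrix.vandermonde z).det‖ < (k : ℝ) * (k - 1) / 2 * Real.log c := by
      linarith
    rw [← Real.exp_log hpos, ← Real.exp_log hc0, ← Real.exp_mul, Real.exp_lt_exp, Real.log_exp] at *
    linarith
  · rw [Matrix.det_vandermonde_eq_zero_iff.2, norm_zero]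
    · exact Real.rpow_pos_of_pos hc0 _
    · unfold Function.Injective at hinj
      push Not at hinj
      obtain ⟨i, j, h1, h2⟩ := hinj
      exact ⟨i, j, h1, h2⟩

end Pool.Agent.H31.EH
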